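import Pool.Agent.W133.DQ.StB

set_option autoImplicit false
open scoped ContDiff
open Set Filter Topology

namespace Pool.Agent.W291.DQ
open Pool.Agent.W133.DQ

theorem nb_mono {r : ℕ} {u : P2 → ℝ} {b b' : ℝ} (h : NB r u b) (hb : b ≤ b') : NB r u b' :=
  fun p => (h p).trans hb

theorem nb_nonneg {r : ℕ} {u : P2 → ℝ} {b : ℝ} (h : NB r u b) : 0 ≤ b :=
  (norm_nonneg _).trans (h 0)

theorem nb_zero {u : P2 → ℝ} {b : ℝ} : NB 0 u b ↔ ∀ p, |u p| ≤ b := by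
  simp [NB, norm_iteratedFDeriv_zero, Real.norm_eq_abs]

theorem nb_one {u : P2 → ℝ} {b : ℝ} : NB 1 u b ↔ ∀ p, ‖fderiv ℝ u p‖ ≤ b := by
  simp [NB, norm_iteratedFDeriv_one]

theorem nb_tr {r : ℕ} {u : P2 → ℝ} {b : ℝ} (c : ℝ) (h : NB r u b) :
    NB r (fun p => u (p.1, p.2 + c)) b := by
  intro p
  have : (fun p : P2 => u (p.1, p.2 + c)) = fun p => u (p + ((0:ℝ), c)) := by
    funext p; congr 1; ext <;> simp
  rw [this, iteratedFDeriv_comp_add_right]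
  exact h _

theorem cd_tr {u : P2 → ℝ} (c : ℝ) (h : ContDiff ℝ ∞ u) :
    ContDiff ℝ ∞ (fun p : P2 => u (p.1, p.2 + c)) := by
  fun_prop

theorem cd_star {u v : P2 → ℝ} (hu : ContDiff ℝ ∞ u) (hv : ContDiff ℝ ∞ v) :
    ContDiff ℝ ∞ (star u v) := by
  unfold W133.DQ.star
  fun_prop

theorem nb_snd {g : ℝ → ℝ} (hg : ContDiff ℝ ∞ g) {r : ℕ} {C : ℝ}
    (h : ∀ x, ‖iteratedFDeriv ℝ r g x‖ ≤ C) : NB r (fun p => g p.2) C := by
  intro p
  have h1 := ContinuousLinearMap.iteratedFDeriv_comp_right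
    (ContinuousLinearMap.snd ℝ ℝ ℝ) (n := ∞) hg p (i := r) (by exact_mod_cast le_top)
  have h2 : (g ∘ (ContinuousLinearMap.snd ℝ ℝ ℝ)) = fun p : P2 => g p.2 := rfl
  rw [h2] at h1
  rw [h1]
  refine (ContinuousMultilinearMap.norm_compContinuousLinearMap_le _ _).trans ?_
  have h3 : ∏ i : Fin r, ‖ContinuousLinearMap.snd ℝ ℝ ℝ‖ ≤ 1 := by
    rw [Finset.prod_const]
    exact pow_le_one₀ (norm_nonneg _) (ContinuousLinearMap.norm_snd_le ℝ ℝ ℝ)
  calc _ ≤ C * 1 := by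
        apply mul_le_mul (h _) h3
        · exact Finset.prod_nonneg (fun _ _ => norm_nonneg _)
        · exact (norm_nonneg _).trans (h 0)
    _ = C := mul_one C

/-- uniform choice of finitely many constants -/
theorem exists_unif (P : ℕ → ℝ → Prop) (hm : ∀ j c c', c ≤ c' → P j c → P j c')
    (h : ∀ j, ∃ c, P j c) (r : ℕ) : ∃ c, 0 ≤ c ∧ ∀ j < r, P j c := by
  induction r with
  | zero => exact ⟨0, le_rfl, fun j hj => absurd hj (Nat.not_lt_zero _)⟩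
  | succ r ih =>
    obtain ⟨c, hc, h1⟩ := ih
    obtain ⟨c', h2⟩ := h r
    refine ⟨max c c', le_max_of_le_left hc, fun j hj => ?_⟩
    rcases Nat.lt_succ_iff_lt_or_eq.1 hj with h3 | rfl
    · exact hm _ _ _ (le_max_left _ _) (h1 j h3)
    · exact hm _ _ _ (le_max_right _ _) h2

theorem abs_star_le (u v : P2 → ℝ) (p : P2) : |star u v p| ≤ |v p| + |u (p.1 + v p, p.2)| := by
  unfold W133.DQ.star
  exact abs_add_le _ _

theorem star0 {u v : P2 → ℝ} {a b : ℝ} (hu : NB 0 u a) (hv : NB 0 v b) : NB 0 (star u v) (a + b) := by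
  rw [nb_zero] at *
  intro p
  refine (abs_star_le u v p).trans ?_
  have := hu (p.1 + v p, p.2)
  have := hv p
  linarith

/-- order one estimate for `star` -/
theorem star1 (hE : S_EC0) {u v : P2 → ℝ} (hu : ContDiff ℝ ∞ u) (hv : ContDiff ℝ ∞ v) {a b : ℝ}
    (h1 : NB 1 u a) (h2 : NB 1 v b) : NB 1 (star u v) ((1 + a) * b + (1 + b) * a) := by
  obtain ⟨C, hC, h⟩ := hE 1 le_rfl
  have ha := nb_nonneg h1
  have hb := nb_nonneg h2
  have := h u v hu hv 0 a b a b le_rfl ha hb ha hb (fun j h3 h4 => absurd h3 (by omega)) h1 h2 h1 h2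
  refine nb_mono this ?_
  simp

/-- small regime of `star`: all orders at most 4. -/
theorem star_small (hE : S_EC0) : ∃ C : ℝ, 1 ≤ C ∧ ∀ u v : P2 → ℝ, ContDiff ℝ ∞ u → ContDiff ℝ ∞ v →
    ∀ a : ℝ, 0 ≤ a → a ≤ 1 → (∀ j : ℕ, j ≤ 4 → NB j u a) → (∀ j : ℕ, j ≤ 4 → NB j v a) →
    ∀ j : ℕ, j ≤ 4 → NB j (star u v) (C * a) := by
  obtain ⟨C, hC, h⟩ := exists_unif (fun j C => 1 ≤ j → 0 ≤ C ∧ ∀ u v : P2 → ℝ, ContDiff ℝ ∞ u →
    ContDiff ℝ ∞ v → ∀ a δu δv bu bv : ℝ, 0 ≤ a → 0 ≤ δu → 0 ≤ δv → 0 ≤ bu → 0 ≤ bv →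
    (∀ i : ℕ, 1 ≤ i → i < j → NB i u a ∧ NB i v a) → NB 1 u δu → NB 1 v δv → NB j u bu → NB j v bv →
    NB j (star u v) ((1 + δu) * bv + (1 + δv) ^ j * bu + C * a ^ 2 * (1 + a) ^ j))
    (by
      intro j c c' hcc h h1
      obtain ⟨h2, h3⟩ := h h1
      refine ⟨h2.trans hcc, fun u v hu hv a δu δv bu bv ha h4 h5 h6 h7 h8 h9 h10 h11 h12 => ?_⟩
      refine nb_mono (h3 u v hu hv a δu δv bu bv ha h4 h5 h6 h7 h8 h9 h10 h11 h12) ?_
      gcongr)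
    (by
      intro j
      by_cases hj : 1 ≤ j
      · obtain ⟨C, hC, h⟩ := hE j hj
        exact ⟨C, fun _ => ⟨hC, h⟩⟩
      · exact ⟨0, fun h => absurd h hj⟩) 5
  refine ⟨18 + 16 * C, by linarith, fun u v hu hv a ha ha1 h1 h2 j hj => ?_⟩
  rcases Nat.eq_zero_or_pos j with rfl | hj0
  · refine nb_mono (star0 (h1 0 (by norm_num)) (h2 0 (by norm_num))) ?_
    nlinarith [mul_nonneg hC ha]
  · obtain ⟨_, h3⟩ := h j (by omega) hj0
    refine nb_mono (h3 u v hu hv a a a a a ha ha ha ha ha (fun i hi1 hi2 => ⟨h1 i (by omega), h2 i (by omega)⟩)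
      (h1 1 (by norm_num)) (h2 1 (by norm_num)) (h1 j hj) (h2 j hj)) ?_
    have h4 : (1 + a) ^ j ≤ 16 := by
      calc (1 + a) ^ j ≤ 2 ^ j := pow_le_pow_left₀ (by linarith) (by linarith) j
        _ ≤ 2 ^ 4 := pow_le_pow_right₀ (by norm_num) hj
        _ = 16 := by norm_num
    have h5 : (0:ℝ) ≤ (1 + a) ^ j := by positivity
    have h6 : (1 + a) * a ≤ 2 * a := by nlinarith
    have h7 : (1 + a) ^ j * a ≤ 16 * a := by nlinarith
    have h8 : C * a ^ 2 * (1 + a) ^ j ≤ C * a * 16 := by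
      have : a ^ 2 ≤ a := by nlinarith
      have h9 : C * a ^ 2 ≤ C * a := mul_le_mul_of_nonneg_left this hC
      calc C * a ^ 2 * (1 + a) ^ j ≤ (C * a) * (1 + a) ^ j := mul_le_mul_of_nonneg_right h9 h5
        _ ≤ C * a * 16 := mul_le_mul_of_nonneg_left h4 (mul_nonneg hC ha)
    nlinarith

/-- bounded regime of `star`. -/
theorem star_bdd (hE : S_EC0) (r : ℕ) (m : ℝ) : ∃ c : ℝ, 0 ≤ c ∧ ∀ u v : P2 → ℝ, ContDiff ℝ ∞ u →
    ContDiff ℝ ∞ v → (∀ j : ℕ, j < r → NB j u m) → (∀ j : ℕ, j < r → NB j v m) →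
    ∀ j : ℕ, j < r → NB j (star u v) c := by
  obtain ⟨C, hC, h⟩ := exists_unif (fun j C => ∀ u v : P2 → ℝ, ContDiff ℝ ∞ u → ContDiff ℝ ∞ v →
    (∀ i : ℕ, i ≤ max j 1 → NB i u m) → (∀ i : ℕ, i ≤ max j 1 → NB i v m) → NB j (star u v) C)
    (by
      intro j c c' hcc h u v hu hv h1 h2
      exact nb_mono (h u v hu hv h1 h2) hcc)
    (by
      intro j
      rcases Nat.eq_zero_or_pos j with rfl | hj
      · exact ⟨m + m, fun u v hu hv h1 h2 => star0 (h1 0 (Nat.zero_le _)) (h2 0 (Nat.zero_le _))⟩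
      · obtain ⟨C, hC, h⟩ := hE j hj
        refine ⟨(1 + m) * m + (1 + m) ^ j * m + C * m ^ 2 * (1 + m) ^ j, fun u v hu hv h1 h2 => ?_⟩
        have hm : 0 ≤ m := nb_nonneg (h1 0 (Nat.zero_le _))
        exact h u v hu hv m m m m m hm hm hm hm hm
          (fun i hi1 hi2 => ⟨h1 i (by omega), h2 i (by omega)⟩) (h1 1 (by omega)) (h2 1 (by omega))
          (h1 j (by omega)) (h2 j (by omega))) (max r 2)
  obtain ⟨C1, hC1⟩ : ∃ C1 : ℝ, C1 = max C (m + m) := ⟨_, rfl⟩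
  refine ⟨C1, hC1 ▸ le_max_of_le_left hC, fun u v hu hv h1 h2 j hj => ?_⟩
  rcases Nat.lt_or_ge 1 r with hr | hr
  · refine nb_mono (h j (by omega) u v hu hv (fun i hi => h1 i (by omega)) (fun i hi => h2 i (by omega))) ?_
    rw [hC1]; exact le_max_left _ _
  · have hj0 : j = 0 := by omega
    subst hj0
    refine nb_mono (star0 (h1 0 hj) (h2 0 hj)) ?_
    rw [hC1]; exact le_max_right _ _

/-- order one estimate for `nv` -/
theorem nv1 {u : P2 → ℝ} (hu : ContDiff ℝ ∞ u) {a : ℝ} (ha : a ≤ 1 / 2) (h1 : NB 1 u a)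
    (hs : ContDiff ℝ ∞ (nv u)) (he : ∀ p : P2, nv u p + u (p.1 + nv u p, p.2) = 0) :
    NB 1 (nv u) (2 * a) := by
  have h0 := nb_nonneg h1
  rw [nb_one] at *
  intro p
  obtain ⟨v, hv⟩ : ∃ v, v = nv u := ⟨_, rfl⟩
  rw [← hv] at hs he ⊢
  have hd : HasFDerivAt v (fderiv ℝ v p) p :=
    (hs.differentiable (by simp)).differentiableAt.hasFDerivAt
  obtain ⟨D, hD⟩ : ∃ D, D = fderiv ℝ v p := ⟨_, rfl⟩
  rw [← hD] at hd ⊢
  have hG : HasFDerivAt (fun q : P2 => ((q.1 + v q, q.2) : P2))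
      ((ContinuousLinearMap.fst ℝ ℝ ℝ + D).prod (ContinuousLinearMap.snd ℝ ℝ ℝ)) p :=
    (hasFDerivAt_fst.add hd).prodMk hasFDerivAt_snd
  have hU : HasFDerivAt u (fderiv ℝ u (p.1 + v p, p.2)) (p.1 + v p, p.2) :=
    (hu.differentiable (by simp)).differentiableAt.hasFDerivAt
  have hc := hU.comp p hG
  have hv2 : v = fun q : P2 => - (u ∘ fun q : P2 => ((q.1 + v q, q.2) : P2)) q := by
    funext q
    have := he q
    simp only [Function.comp]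
    linarith
  have hc2 := hc.neg
  have h3 : D = -((fderiv ℝ u (p.1 + v p, p.2)).comp
      ((ContinuousLinearMap.fst ℝ ℝ ℝ + D).prod (ContinuousLinearMap.snd ℝ ℝ ℝ))) := by
    have h4 : HasFDerivAt v (-((fderiv ℝ u (p.1 + v p, p.2)).comp
      ((ContinuousLinearMap.fst ℝ ℝ ℝ + D).prod (ContinuousLinearMap.snd ℝ ℝ ℝ)))) p := by
      have h6 : v = -(u ∘ fun q : P2 => ((q.1 + v q, q.2) : P2)) := hv2
      rw [← h6] at hc2
      exact hc2
    exact hd.unique h4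
  have h5 : ‖(ContinuousLinearMap.fst ℝ ℝ ℝ + D).prod (ContinuousLinearMap.snd ℝ ℝ ℝ)‖ ≤ 1 + ‖D‖ := by
    refine ContinuousLinearMap.opNorm_le_bound _ (by positivity) (fun x => ?_)
    rw [ContinuousLinearMap.prod_apply, Prod.norm_def]
    refine max_le ?_ ?_
    · simp only [add_apply, ContinuousLinearMap.coe_fst']
      refine (norm_add_le _ _).trans ?_
      have h6 : ‖x.1‖ ≤ ‖x‖ := norm_fst_le x
      have h7 := D.le_opNorm x
      nlinarith [norm_nonneg x]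
    · simp only [ContinuousLinearMap.coe_snd']
      have h6 : ‖x.2‖ ≤ ‖x‖ := norm_snd_le x
      nlinarith [norm_nonneg x, mul_nonneg (norm_nonneg D) (norm_nonneg x)]
  have h8 : ‖D‖ ≤ a * (1 + ‖D‖) := by
    obtain ⟨E, hE⟩ : ∃ E, E = (ContinuousLinearMap.fst ℝ ℝ ℝ + D).prod (ContinuousLinearMap.snd ℝ ℝ ℝ) := ⟨_, rfl⟩
    rw [← hE] at h3 h5
    obtain ⟨F, hF⟩ : ∃ F, F = fderiv ℝ u (p.1 + v p, p.2) := ⟨_, rfl⟩
    have h9 : ‖F‖ ≤ a := hF ▸ h1 _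
    rw [← hF] at h3
    have h10 : ‖D‖ = ‖F.comp E‖ := by
      rw [h3, norm_neg]
    rw [h10]
    refine (ContinuousLinearMap.opNorm_comp_le F E).trans ?_
    rw [← h10]
    exact mul_le_mul h9 h5 (norm_nonneg _) h0
  nlinarith [norm_nonneg D]

end Pool.Agent.W291.DQ
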