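import Pool.Agent.W291.DQ.Base

set_option autoImplicit false
open scoped ContDiff
open Set Filter Topology

namespace Pool.Agent.W291.DQ
open Pool.Agent.W133.DQ

/-- facts about the multiplication with a cut-off -/
theorem em_one (hEM : S_EM) (η : P2 → ℝ) (hη : ContDiff ℝ ∞ η) (hη1 : ∀ p, |η p| ≤ 1)
    (hηb : ∀ r : ℕ, ∃ C : ℝ, NB r η C) : ∃ C : ℝ, 1 ≤ C ∧ ∀ (u : P2 → ℝ) (a : ℝ), ContDiff ℝ ∞ u →
    NB 0 u a → NB 1 u a → NB 0 (fun p => η p * u p) a ∧ NB 1 (fun p => η p * u p) (C * a) := by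
  obtain ⟨⟨C, hC, h⟩, -⟩ := hEM η hη hη1 hηb
  refine ⟨max C 1, le_max_right _ _, fun u a hu h0 h1 => ⟨?_, ?_⟩⟩
  · rw [nb_zero] at *
    intro p
    rw [abs_mul]
    have := h0 p
    have := hη1 p
    have := abs_nonneg (u p)
    nlinarith
  · have ha := nb_nonneg h0
    refine nb_mono (h u a hu ha 1 (by norm_num) (fun j hj => ?_)) (mul_le_mul_of_nonneg_right (le_max_left _ _) ha)
    interval_cases j
    · exact h0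
    · exact h1

theorem em_small (hEM : S_EM) (η : P2 → ℝ) (hη : ContDiff ℝ ∞ η) (hη1 : ∀ p, |η p| ≤ 1)
    (hηb : ∀ r : ℕ, ∃ C : ℝ, NB r η C) : ∃ C : ℝ, 1 ≤ C ∧ ∀ (u : P2 → ℝ) (a : ℝ), ContDiff ℝ ∞ u →
    (∀ j : ℕ, j ≤ 4 → NB j u a) → ∀ j : ℕ, j ≤ 4 → NB j (fun p => η p * u p) (C * a) := by
  obtain ⟨⟨C, hC, h⟩, -⟩ := hEM η hη hη1 hηb
  refine ⟨max C 1, le_max_right _ _, fun u a hu h0 j hj => ?_⟩
  have ha := nb_nonneg (h0 0 (by norm_num))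
  exact nb_mono (h u a hu ha j hj (fun i hi => h0 i (hi.trans hj)))
    (mul_le_mul_of_nonneg_right (le_max_left _ _) ha)

theorem em_large (hEM : S_EM) (η : P2 → ℝ) (hη : ContDiff ℝ ∞ η) (hη1 : ∀ p, |η p| ≤ 1)
    (hηb : ∀ r : ℕ, ∃ C : ℝ, NB r η C) (r : ℕ) (m : ℝ) : ∃ c : ℝ, 0 ≤ c ∧
    ∀ (u : P2 → ℝ) (b : ℝ), ContDiff ℝ ∞ u → 0 ≤ b → (∀ j : ℕ, j < r → NB j u m) → NB r u b →
    NB r (fun p => η p * u p) (b + c) ∧ ∀ j : ℕ, j < r → NB j (fun p => η p * u p) c := by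
  obtain ⟨-, h⟩ := hEM η hη hη1 hηb
  obtain ⟨c1, hc1, h1⟩ := exists_unif (fun j C => ∀ u : P2 → ℝ, ContDiff ℝ ∞ u →
      (∀ i : ℕ, i ≤ j → NB i u m) → NB j (fun p => η p * u p) C)
    (fun j c c' hcc h2 u hu h3 => nb_mono (h2 u hu h3) hcc)
    (fun j => by
      obtain ⟨c, hc, h2⟩ := h j m
      refine ⟨m + c, fun u hu h3 => ?_⟩
      exact h2 u m hu (nb_nonneg (h3 0 (Nat.zero_le _))) (fun i hi => h3 i hi.le) (h3 j le_rfl)) r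
  obtain ⟨c2, hc2, h2⟩ := h r m
  refine ⟨max c1 c2, le_max_of_le_left hc1, fun u b hu hb h3 h4 => ⟨?_, fun j hj => ?_⟩⟩
  · exact nb_mono (h2 u b hu hb h3 h4) (by linarith [le_max_right c1 c2])
  · exact nb_mono (h1 j hj u hu (fun i hi => h3 i (lt_of_le_of_lt hi hj))) (le_max_left _ _)

theorem cut_the0 (hC : S_CUT) : ContDiff ℝ ∞ (fun p : P2 => the0 p.2) ∧ (∀ p : P2, |the0 p.2| ≤ 1) ∧
    (∀ r : ℕ, ∃ C : ℝ, NB r (fun p : P2 => the0 p.2) C) ∧ ∀ y : ℝ, 1 ≤ |y| → the0 y = 0 := by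
  obtain ⟨h1, -, -, h4⟩ := hC
  obtain ⟨a1, a2, a3, a4⟩ := h1 (2/5) (4/5) (by norm_num) (by norm_num)
  have a1' : ContDiff ℝ ∞ the0 := a1
  refine ⟨a1'.comp contDiff_snd, fun p => ?_, fun r => ?_, fun y hy => a4 y (by linarith)⟩
  · have := a2 p.2
    exact abs_le.2 ⟨by linarith [this.1, show the0 p.2 = pl (2/5) (4/5) p.2 from rfl], this.2⟩
  · obtain ⟨C, -, -, -, -, h, -⟩ := h4 r
    exact ⟨C, nb_snd a1' h⟩

theorem cut_kap1 (hC : S_CUT) : ContDiff ℝ ∞ (fun p : P2 => kap1 p.2) ∧ (∀ p : P2, |kap1 p.2| ≤ 1) ∧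
    (∀ r : ℕ, ∃ C : ℝ, NB r (fun p : P2 => kap1 p.2) C) ∧ ∀ y : ℝ, 1 ≤ |y| → kap1 y = 0 := by
  obtain ⟨h1, -, -, h4⟩ := hC
  obtain ⟨a1, a2, a3, a4⟩ := h1 (7/10) (9/10) (by norm_num) (by norm_num)
  have a1' : ContDiff ℝ ∞ kap1 := a1
  refine ⟨a1'.comp contDiff_snd, fun p => ?_, fun r => ?_, fun y hy => a4 y (by linarith)⟩
  · have := a2 p.2
    exact abs_le.2 ⟨by linarith [this.1, show kap1 p.2 = pl (7/10) (9/10) p.2 from rfl], this.2⟩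
  · obtain ⟨C, -, -, -, -, -, h⟩ := h4 r
    exact ⟨C, nb_snd a1' h⟩

theorem cut_the (hC : S_CUT) : ContDiff ℝ ∞ (fun p : P2 => the p.2) ∧ (∀ p : P2, |the p.2| ≤ 1) ∧
    (∀ r : ℕ, ∃ C : ℝ, NB r (fun p : P2 => the p.2) C) := by
  obtain ⟨-, -, h3, h4⟩ := hC
  refine ⟨h3.1.comp contDiff_snd, fun p => ?_, fun r => ?_⟩
  · have := h3.2.1 p.2
    exact abs_le.2 ⟨by linarith [this.1], this.2⟩
  · obtain ⟨C, -, h, -⟩ := h4 r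
    exact ⟨C, nb_snd h3.1 h⟩

/-- the function `W_o` of stage Y -/
noncomputable def Wo (W : P2 → ℝ) : P2 → ℝ := W133.DQ.star (nv (fun q => the q.2 * W q)) W

theorem odp_eq (A : ℕ) (W : P2 → ℝ) (i : ℕ) :
    odp A W i = fun p => kap1 p.2 * Wo W (p.1, p.2 + (2 * ((i : ℝ) - A) + 1)) := rfl

theorem evp_eq (A : ℕ) (W : P2 → ℝ) (i : ℕ) :
    evp A W i = fun p => the0 p.2 * W (p.1, p.2 + 2 * ((i : ℝ) - A)) := rfl

/-- order one facts about the inverse in `W_o` -/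
theorem wo_pre (hC : S_CUT) (hN : S_NV) (hEM : S_EM) : ∃ δ C : ℝ, 0 < δ ∧ δ ≤ 1 ∧ 1 ≤ C ∧ C * δ ≤ 1 / 4 ∧
    ∀ W : P2 → ℝ, ContDiff ℝ ∞ W → ∀ d : ℝ, d ≤ δ → NB 0 W d → NB 1 W d →
    ContDiff ℝ ∞ (fun q : P2 => the q.2 * W q) ∧
    NB 0 (fun q : P2 => the q.2 * W q) d ∧ NB 1 (fun q : P2 => the q.2 * W q) (C * d) ∧
    NB 1 (fun q : P2 => the q.2 * W q) (1 / 4) ∧
    ContDiff ℝ ∞ (nv (fun q : P2 => the q.2 * W q)) ∧ NB 0 (nv (fun q : P2 => the q.2 * W q)) (2 * d) ∧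
    NB 1 (nv (fun q : P2 => the q.2 * W q)) (2 * (C * d)) ∧
    (∀ p, |nv (fun q : P2 => the q.2 * W q) p| ≤ 2 * |the p.2 * W p|) ∧
    (∀ p, W p = 0 → nv (fun q : P2 => the q.2 * W q) p = 0) := by
  obtain ⟨t1, t2, t3⟩ := cut_the hC
  obtain ⟨C, hC1, h⟩ := em_one hEM _ t1 t2 t3
  refine ⟨1 / (4 * C), C, by positivity, ?_, hC1, ?_, fun W hW d hd h0 h1 => ?_⟩
  · rw [div_le_one (by positivity)]; linarith
  · apply le_of_eq; field_simp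
  obtain ⟨e0, e1⟩ := h W d hW h0 h1
  have hd0 : 0 ≤ d := nb_nonneg h0
  have hCd : C * d ≤ 1 / 4 := by
    calc C * d ≤ C * (1 / (4 * C)) := mul_le_mul_of_nonneg_left hd (by linarith)
      _ = 1 / 4 := by field_simp
  have hs : ContDiff ℝ ∞ (fun q : P2 => the q.2 * W q) := t1.mul hW
  obtain ⟨n1, n2, n3, n4, n5⟩ := hN.2.2.1 (fun q : P2 => the q.2 * W q) hs
    (nb_mono e1 (by linarith)) ⟨d, nb_zero.1 e0⟩
  refine ⟨hs, e0, e1, nb_mono e1 hCd, n1, ?_, ?_, n3, fun p hp => n5 p (by simp [hp])⟩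
  · rw [nb_zero]
    intro p
    have := nb_zero.1 e0 p
    linarith [n3 p]
  · exact nv1 hs (by linarith) e1 n1 n2

theorem wo_one (hC : S_CUT) (hN : S_NV) (hE : S_EC0) (hEM : S_EM) : ∃ δ K : ℝ, 0 < δ ∧ 1 ≤ K ∧
    ∀ W : P2 → ℝ, ContDiff ℝ ∞ W → ∀ d : ℝ, d ≤ δ → NB 0 W d → NB 1 W d →
    ContDiff ℝ ∞ (Wo W) ∧ NB 0 (Wo W) (K * d) ∧ NB 1 (Wo W) (K * d) ∧ (∀ p, W p = 0 → Wo W p = 0) := by
  obtain ⟨δ, C, hδ, hδ1, hC1, hCδ, h⟩ := wo_pre hC hN hEM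
  refine ⟨δ, 2 + 4 * C, hδ, by linarith, fun W hW d hd h0 h1 => ?_⟩
  obtain ⟨-, -, -, -, n1, n2, n3, -, n4⟩ := h W hW d hd h0 h1
  have hd0 : 0 ≤ d := nb_nonneg h0
  have hd1 : d ≤ 1 := hd.trans hδ1
  have hCd : C * d ≤ 1 / 4 := (mul_le_mul_of_nonneg_left hd (by linarith)).trans hCδ
  have hCd0 : 0 ≤ C * d := mul_nonneg (by linarith) hd0
  refine ⟨cd_star n1 hW, nb_mono (star0 n2 h0) ?_, nb_mono (star1 hE n1 hW n3 h1) ?_, fun p hp => ?_⟩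
  · nlinarith
  · nlinarith
  · unfold Wo W133.DQ.star
    rw [hp]
    simp only [add_zero, zero_add]
    exact n4 p hp

theorem wo_small (hC : S_CUT) (hN : S_NV) (hE : S_EC0) (hEM : S_EM) (hI : S_EI1) : ∃ δ K : ℝ, 0 < δ ∧ 1 ≤ K ∧
    ∀ W : P2 → ℝ, ContDiff ℝ ∞ W → ∀ a : ℝ, a ≤ δ → (∀ j : ℕ, j ≤ 4 → NB j W a) →
    ContDiff ℝ ∞ (Wo W) ∧ ∀ j : ℕ, j ≤ 4 → NB j (Wo W) (K * a) := by
  obtain ⟨δ, C, hδ, hδ1, hC1, hCδ, h⟩ := wo_pre hC hN hEM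
  obtain ⟨t1, t2, t3⟩ := cut_the hC
  obtain ⟨C1, hC1', h1⟩ := em_small hEM _ t1 t2 t3
  obtain ⟨C2, ε2, hC2, hε2, h2⟩ := hI
  obtain ⟨C4, hC4, h4⟩ := star_small hE
  obtain ⟨C3, hC3⟩ : ∃ C3 : ℝ, C3 = (C2 + 2) * C1 := ⟨_, rfl⟩
  have hC31 : 1 ≤ C3 := by rw [hC3]; nlinarith
  refine ⟨min δ (min (ε2 / C1) (1 / C3)), C4 * C3, by positivity, by nlinarith, fun W hW a ha hj => ?_⟩
  have ha0 : 0 ≤ a := nb_nonneg (hj 0 (by norm_num))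
  have haδ : a ≤ δ := ha.trans (min_le_left _ _)
  have ha1 : C1 * a ≤ ε2 := by
    have : a ≤ ε2 / C1 := ha.trans ((min_le_right _ _).trans (min_le_left _ _))
    rw [le_div_iff₀ (by linarith)] at this
    linarith
  have ha2 : C3 * a ≤ 1 := by
    have : a ≤ 1 / C3 := ha.trans ((min_le_right _ _).trans (min_le_right _ _))
    rw [le_div_iff₀ (by linarith)] at this
    linarith
  obtain ⟨s1, s2, -, -, n1, n2, n3, n5, n4⟩ := h W hW a haδ (hj 0 (by norm_num)) (hj 1 (by norm_num))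
  have e1 := h1 W a hW hj
  have e2 := h2 _ s1 ⟨a, nb_zero.1 s2⟩ (C1 * a) (by positivity) ha1 (fun j _ h5 => e1 j h5)
  have e3 : ∀ j : ℕ, j ≤ 4 → NB j (nv (fun q : P2 => the q.2 * W q)) (C3 * a) := by
    intro j hj4
    rcases Nat.eq_zero_or_pos j with rfl | hj0
    · refine nb_mono n2 ?_
      rw [hC3]
      nlinarith [mul_nonneg (mul_nonneg hC2.le (by linarith : (0:ℝ) ≤ C1)) ha0]
    · refine nb_mono (e2 j hj0 hj4) ?_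
      rw [hC3]
      nlinarith
  have e4 : ∀ j : ℕ, j ≤ 4 → NB j W (C3 * a) := fun j hj4 => nb_mono (hj j hj4) (by nlinarith)
  refine ⟨cd_star n1 hW, fun j hj4 => ?_⟩
  refine nb_mono (h4 _ W n1 hW (C3 * a) (by positivity) ha2 e3 e4 j hj4) (by rw [mul_assoc])

theorem wo_large (hC : S_CUT) (hN : S_NV) (hE : S_EC0) (hEM : S_EM) (hI : S_EI2) : ∃ δ : ℝ, 0 < δ ∧
    ∀ (r : ℕ) (m : ℝ), 2 ≤ r → ∃ c : ℝ, 0 ≤ c ∧ ∀ (W : P2 → ℝ) (b : ℝ), ContDiff ℝ ∞ W →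
    NB 0 W δ → NB 1 W δ → (∀ j : ℕ, j < r → NB j W m) → 0 ≤ b → NB r W b →
    NB r (Wo W) (4 * 4 ^ r * b + c) ∧ ∀ j : ℕ, j < r → NB j (Wo W) c := by
  obtain ⟨δ, C, hδ, hδ1, hC1, hCδ, h⟩ := wo_pre hC hN hEM
  obtain ⟨t1, t2, t3⟩ := cut_the hC
  refine ⟨δ, hδ, fun r m hr => ?_⟩
  obtain ⟨c1, hc1, h1⟩ := em_large hEM _ t1 t2 t3 r m
  obtain ⟨c2, hc2, h2⟩ := hI r hr c1
  obtain ⟨a0, ha0⟩ : ∃ a0 : ℝ, a0 = max (max c2 (2 * c1)) |m| := ⟨_, rfl⟩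
  have ha1 : c2 ≤ a0 := by rw [ha0]; exact (le_max_left _ _).trans (le_max_left _ _)
  have ha2 : 2 * c1 ≤ a0 := by rw [ha0]; exact (le_max_right _ _).trans (le_max_left _ _)
  have ha3 : m ≤ a0 := by rw [ha0]; exact (le_abs_self m).trans (le_max_right _ _)
  have ha4 : 0 ≤ a0 := hc2.trans ha1
  obtain ⟨c3, hc3, h3⟩ := star_bdd hE r a0
  obtain ⟨c5, hc5, h5⟩ := hE r (by omega)
  obtain ⟨c, hcd⟩ : ∃ c : ℝ, c = c3 + 2 ^ r * (2 ^ (r + 1) * c1 + c2) + c5 * a0 ^ 2 * (1 + a0) ^ r := ⟨_, rfl⟩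
  have q1 : 0 ≤ (2:ℝ) ^ r * (2 ^ (r + 1) * c1 + c2) := by positivity
  have q2 : 0 ≤ c5 * a0 ^ 2 * (1 + a0) ^ r := by positivity
  refine ⟨c, by linarith, fun W b hW w0 w1 wj hb wr => ?_⟩
  obtain ⟨s1, s2, -, s4, n1, n2, n3, n5, n4⟩ := h W hW δ le_rfl w0 w1
  obtain ⟨e1, e2⟩ := h1 W b hW hb wj wr
  obtain ⟨f1, f2⟩ := h2 _ s1 ⟨δ, nb_zero.1 s2⟩ (b + c1) (by positivity) s4 (fun j _ hj => e2 j hj) e1
  have g1 : ∀ j : ℕ, j < r → NB j (nv (fun q : P2 => the q.2 * W q)) a0 := by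
    intro j hj
    rcases Nat.eq_zero_or_pos j with rfl | hj0
    · rw [nb_zero]
      intro p
      have := nb_zero.1 (e2 0 hj) p
      linarith [n5 p]
    · exact nb_mono (f2 j hj0 hj) ha1
  have g2 : ∀ j : ℕ, j < r → NB j W a0 := fun j hj => nb_mono (wj j hj) ha3
  refine ⟨?_, fun j hj => nb_mono (h3 _ W n1 hW g1 g2 j hj) (by linarith)⟩
  have g3 := h5 _ W n1 hW a0 1 1 (2 ^ (r + 1) * (b + c1) + c2) b ha4 zero_le_one zero_le_one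
    (by positivity) hb (fun j _ hj => ⟨g1 j hj, g2 j hj⟩) (nb_mono n3 (by linarith)) (nb_mono w1 hδ1) f1 wr
  refine nb_mono g3 ?_
  have q3 : (4:ℝ) ^ r = 2 ^ r * 2 ^ r := by rw [← mul_pow]; norm_num
  have q4 : (1:ℝ) ≤ 2 ^ r := one_le_pow₀ (by norm_num)
  have q5 : (1:ℝ) ≤ 4 ^ r := one_le_pow₀ (by norm_num)
  have q6 : (1 + 1 : ℝ) ^ r = 2 ^ r := by norm_num
  rw [q6, hcd]
  have q7 : (2:ℝ) ^ r * (2 ^ (r + 1) * (b + c1) + c2) = 2 * 4 ^ r * b + 2 ^ r * (2 ^ (r + 1) * c1 + c2) := by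
    rw [q3]; ring
  rw [q7]
  have q8 : b ≤ 4 ^ r * b := by nlinarith
  linarith

end Pool.Agent.W291.DQ
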