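import Pool.Agent.W291.DQ.Y

set_option autoImplicit false
open scoped ContDiff
open Set Filter Topology

namespace Pool.Agent.W291.DQ
open Pool.Agent.W133.DQ

theorem cd_chain {w : ℕ → P2 → ℝ} (hw : ∀ i, ContDiff ℝ ∞ (w i)) (m : ℕ) :
    ContDiff ℝ ∞ (chain w m) := by
  induction m with
  | zero => exact contDiff_const
  | succ m ih => exact cd_star (hw m) ih

theorem chain_zero {w : ℕ → P2 → ℝ} {p : P2} (hw : ∀ i, w i p = 0) (m : ℕ) : chain w m p = 0 := by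
  induction m with
  | zero => rfl
  | succ m ih =>
    change chain w m p + w m (p.1 + chain w m p, p.2) = 0
    rw [ih]
    simp [hw m]

theorem y_zero (hCut : S_CUT) (hN : S_NV) (hEM : S_EM) (hE : S_EC0) {A : ℕ} : ∃ δ : ℝ, 0 < δ ∧
    ∀ W : P2 → ℝ, ContDiff ℝ ∞ W → SuppBox 1 A W → NB 0 W δ → NB 1 W δ → SuppBox 1 1 (SY A W) := by
  obtain ⟨-, -, -, k0⟩ := cut_the0 hCut
  obtain ⟨-, -, -, k1⟩ := cut_kap1 hCut
  obtain ⟨δ, K, hδ, hK, h⟩ := wo_one hCut hN hE hEM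
  refine ⟨δ, hδ, fun W hW hs h0 h1 p hp => ?_⟩
  obtain ⟨-, -, -, w4⟩ := h W hW δ le_rfl h0 h1
  have e1 : ∀ i, evp A W i p = 0 := by
    intro i
    rw [evp_eq]
    rcases hp with hp | hp
    · simp only [hs (p.1, p.2 + 2 * ((i : ℝ) - A)) (Or.inl hp), mul_zero]
    · simp only [k0 p.2 hp, zero_mul]
  have e2 : ∀ i, odp A W i p = 0 := by
    intro i
    rw [odp_eq]
    rcases hp with hp | hp
    · simp only [w4 (p.1, p.2 + (2 * ((i : ℝ) - A) + 1)) (hs _ (Or.inl hp)), mul_zero]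
    · simp only [k1 p.2 hp, zero_mul]
  change chain (odp A W) (2 * A + 1) p + chain (evp A W) (2 * A + 1) (p.1 + chain (odp A W) (2 * A + 1) p, p.2) = 0
  rw [chain_zero e2]
  simpa using chain_zero e1 (2 * A + 1)

/-- the pieces, order one -/
theorem pieces_one (hCut : S_CUT) (hN : S_NV) (hEM : S_EM) (hE : S_EC0) : ∃ δ K : ℝ, 0 < δ ∧ 1 ≤ K ∧
    ∀ W : P2 → ℝ, ContDiff ℝ ∞ W → ∀ d : ℝ, d ≤ δ → NB 0 W d → NB 1 W d → ∀ A i : ℕ,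
    ContDiff ℝ ∞ (evp A W i) ∧ ContDiff ℝ ∞ (odp A W i) ∧ NB 0 (evp A W i) (K * d) ∧
    NB 0 (odp A W i) (K * d) ∧ NB 1 (evp A W i) (K * d) ∧ NB 1 (odp A W i) (K * d) := by
  obtain ⟨a1, a2, a3, -⟩ := cut_the0 hCut
  obtain ⟨b1, b2, b3, -⟩ := cut_kap1 hCut
  obtain ⟨δ, K, hδ, hK, h⟩ := wo_one hCut hN hE hEM
  obtain ⟨C1, hC1, h1⟩ := em_one hEM _ a1 a2 a3
  obtain ⟨C2, hC2, h2⟩ := em_one hEM _ b1 b2 b3
  refine ⟨δ, C1 + C2 * K, hδ, by nlinarith, fun W hW d hd w0 w1 A i => ?_⟩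
  have hd0 : 0 ≤ d := nb_nonneg w0
  obtain ⟨o1, o2, o3, -⟩ := h W hW d hd w0 w1
  obtain ⟨p1, p2⟩ := h1 _ d (cd_tr (2 * ((i : ℝ) - A)) hW) (nb_tr _ w0) (nb_tr _ w1)
  obtain ⟨q1, q2⟩ := h2 _ (K * d) (cd_tr (2 * ((i : ℝ) - A) + 1) o1) (nb_tr _ o2) (nb_tr _ o3)
  have hK0 : 0 ≤ C2 * K := by positivity
  have hKd : 0 ≤ K * d := mul_nonneg (by linarith) hd0
  refine ⟨a1.mul (cd_tr (2 * ((i : ℝ) - A)) hW), b1.mul (cd_tr (2 * ((i : ℝ) - A) + 1) o1), nb_mono p1 ?_, nb_mono q1 ?_, nb_mono p2 ?_, nb_mono q2 ?_⟩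
  · nlinarith [mul_nonneg hK0 hd0]
  · nlinarith [mul_nonneg (by linarith : (0:ℝ) ≤ C1) hd0, mul_nonneg (sub_nonneg.2 hC2) hKd]
  · nlinarith [mul_nonneg hK0 hd0]
  · nlinarith [mul_nonneg (by linarith : (0:ℝ) ≤ C1) hd0]

theorem y0 (hCH : S_CH0) (hCut : S_CUT) (hN : S_NV) (hE : S_EC0) (hEM : S_EM) (hP : S_POIN) : S_Y0 := by
  intro A hA
  obtain ⟨δ1, K, hδ1, hK, h1⟩ := pieces_one hCut hN hEM hE
  obtain ⟨δ2, hδ2, h2⟩ := hCH (2 * A + 1)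
  obtain ⟨δ3, hδ3, h3⟩ := y_zero hCut hN hEM hE (A := A)
  obtain ⟨M, hM⟩ : ∃ M : ℝ, M = ((2 * A + 1 : ℕ) : ℝ) := ⟨_, rfl⟩
  have hM1 : 1 ≤ M := by
    rw [hM]; push_cast
    have : (0:ℝ) ≤ A := Nat.cast_nonneg A
    linarith
  refine ⟨min (min (δ1 / 2) (δ3 / 2)) (min (δ2 / (2 * K)) (1 / (4 * M * K))), 16 * M * K, by positivity, by positivity,
    fun W hW hs d hd0 hd w1 => ?_⟩
  have d1 : 2 * d ≤ δ1 := by
    have := hd.trans ((min_le_left _ _).trans (min_le_left _ _))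
    linarith
  have d3 : 2 * d ≤ δ3 := by
    have := hd.trans ((min_le_left _ _).trans (min_le_right _ _))
    linarith
  have d2 : K * (2 * d) ≤ δ2 := by
    have := hd.trans ((min_le_right _ _).trans (min_le_left _ _))
    rw [le_div_iff₀ (by linarith)] at this
    linarith
  have d4 : 4 * M * K * d ≤ 1 := by
    have := hd.trans ((min_le_right _ _).trans (min_le_right _ _))
    rw [le_div_iff₀ (by positivity)] at this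
    linarith
  have w0 : NB 0 W (2 * d) := hP.1 W A 0 d hW hs w1
  have w1' : NB 1 W (2 * d) := nb_mono w1 (by linarith)
  have hp := h1 W hW (2 * d) d1 w0 w1' A
  obtain ⟨c1, c2, c3, -⟩ := h2 (evp A W) (evp A W) (fun i => (hp i).1) (fun i => (hp i).1)
  obtain ⟨c1', c2', c3', -⟩ := h2 (odp A W) (odp A W) (fun i => (hp i).2.1) (fun i => (hp i).2.1)
  have hx0 : 0 ≤ K * (2 * d) := by positivity
  have e0 := c2 (K * (2 * d)) (fun i _ => nb_zero.1 (hp i).2.2.1)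
  have o0 := c2' (K * (2 * d)) (fun i _ => nb_zero.1 (hp i).2.2.2.1)
  have e1 := c3 (K * (2 * d)) hx0 d2 (fun i _ => (hp i).2.2.2.2.1)
  have o1 := c3' (K * (2 * d)) hx0 d2 (fun i _ => (hp i).2.2.2.2.2)
  rw [← hM] at e0 o0 e1 o1
  refine ⟨cd_star c1 c1', h3 W hW hs (nb_mono w0 d3) (nb_mono w1' d3), ?_, ?_⟩
  · have := star0 (nb_zero.2 e0) (nb_zero.2 o0)
    have h4 := nb_zero.1 this
    intro p
    refine (h4 p).trans ?_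
    nlinarith [mul_nonneg (mul_nonneg (by linarith : (0:ℝ) ≤ M) (by linarith : (0:ℝ) ≤ K)) hd0]
  · refine nb_mono (star1 hE c1 c1' e1 o1) ?_
    have hx : 2 * M * (K * (2 * d)) ≤ 1 := by linarith
    have hx' : 0 ≤ 2 * M * (K * (2 * d)) := by positivity
    nlinarith

theorem pieces_small (hCut : S_CUT) (hN : S_NV) (hEM : S_EM) (hE : S_EC0) (hI : S_EI1) : ∃ δ K : ℝ,
    0 < δ ∧ 1 ≤ K ∧ ∀ W : P2 → ℝ, ContDiff ℝ ∞ W → ∀ a : ℝ, a ≤ δ → (∀ j : ℕ, j ≤ 4 → NB j W a) →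
    ∀ A i : ℕ, ContDiff ℝ ∞ (evp A W i) ∧ ContDiff ℝ ∞ (odp A W i) ∧
    (∀ j : ℕ, j ≤ 4 → NB j (evp A W i) (K * a)) ∧ (∀ j : ℕ, j ≤ 4 → NB j (odp A W i) (K * a)) := by
  obtain ⟨a1, a2, a3, -⟩ := cut_the0 hCut
  obtain ⟨b1, b2, b3, -⟩ := cut_kap1 hCut
  obtain ⟨δ, K, hδ, hK, h⟩ := wo_small hCut hN hE hEM hI
  obtain ⟨C1, hC1, h1⟩ := em_small hEM _ a1 a2 a3
  obtain ⟨C2, hC2, h2⟩ := em_small hEM _ b1 b2 b3
  refine ⟨δ, C1 + C2 * K, hδ, by nlinarith, fun W hW a ha hj A i => ?_⟩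
  have ha0 : 0 ≤ a := nb_nonneg (hj 0 (by norm_num))
  obtain ⟨o1, o2⟩ := h W hW a ha hj
  have p1 := h1 _ a (cd_tr (2 * ((i : ℝ) - A)) hW) (fun j h5 => nb_tr _ (hj j h5))
  have q1 := h2 _ (K * a) (cd_tr (2 * ((i : ℝ) - A) + 1) o1) (fun j h5 => nb_tr _ (o2 j h5))
  have hK0 : 0 ≤ C2 * K := by positivity
  refine ⟨a1.mul (cd_tr (2 * ((i : ℝ) - A)) hW), b1.mul (cd_tr (2 * ((i : ℝ) - A) + 1) o1),
    fun j h5 => nb_mono (p1 j h5) ?_, fun j h5 => nb_mono (q1 j h5) ?_⟩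
  · nlinarith [mul_nonneg hK0 ha0]
  · nlinarith [mul_nonneg (by linarith : (0:ℝ) ≤ C1) ha0]

theorem y1 (hCH : S_CH1) (hCut : S_CUT) (hN : S_NV) (hE : S_EC0) (hEM : S_EM) (hI : S_EI1) : S_Y1 := by
  obtain ⟨δ, K, hδ, hK, h1⟩ := pieces_small hCut hN hEM hE hI
  obtain ⟨C4, hC4, h4⟩ := hE 4 (by norm_num)
  refine ⟨54 * K, by positivity, fun A hA => ?_⟩
  obtain ⟨ε, C, hε, hC, h2⟩ := hCH (2 * A + 1)
  obtain ⟨M, hM⟩ : ∃ M : ℝ, M = ((2 * A + 1 : ℕ) : ℝ) := ⟨_, rfl⟩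
  have hA1 : (1:ℝ) ≤ A := by exact_mod_cast hA
  have hM1 : M ≤ 3 * A := by
    rw [hM]; push_cast
    linarith
  have hM0 : 0 ≤ M := by rw [hM]; positivity
  refine ⟨min δ (min (ε / K) (1 / (C * K))), 18 * C * K ^ 2 + 16 * C4 * (C * K) ^ 2 + 1, by positivity, by positivity,
    fun W hW hs a ha0 ha hj => ?_⟩
  have a1 : a ≤ δ := ha.trans (min_le_left _ _)
  have a2 : K * a ≤ ε := by
    have := ha.trans ((min_le_right _ _).trans (min_le_left _ _))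
    rw [le_div_iff₀ (by linarith)] at this
    linarith
  have a3 : C * (K * a) ≤ 1 := by
    have := ha.trans ((min_le_right _ _).trans (min_le_right _ _))
    rw [le_div_iff₀ (by positivity)] at this
    linarith
  have hp := h1 W hW a a1 hj A
  have hKa : 0 ≤ K * a := by positivity
  obtain ⟨e1, e2⟩ := h2 (evp A W) (fun i => (hp i).1) (K * a) (K * a) hKa a2 hKa
    (fun i _ j _ h5 => (hp i).2.2.1 j h5) (fun i _ => (hp i).2.2.1 4 le_rfl)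
  obtain ⟨o1, o2⟩ := h2 (odp A W) (fun i => (hp i).2.1) (K * a) (K * a) hKa a2 hKa
    (fun i _ j _ h5 => (hp i).2.2.2 j h5) (fun i _ => (hp i).2.2.2 4 le_rfl)
  rw [← hM] at e1 o1
  have hx0 : 0 ≤ C * (K * a) := by positivity
  obtain ⟨x, hx⟩ : ∃ x, x = C * (K * a) := ⟨_, rfl⟩
  rw [← hx] at e2 o2 hx0 a3
  obtain ⟨B, hB⟩ : ∃ B, B = M * (K * a) + C * (K * a) ^ 2 := ⟨_, rfl⟩
  rw [← hB] at e1 o1
  have hB0 : 0 ≤ B := by rw [hB]; positivity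
  have f1 := h4 _ _ (cd_chain (fun i => (hp i).1) (2 * A + 1)) (cd_chain (fun i => (hp i).2.1) (2 * A + 1))
    x x x B B hx0 hx0 hx0 hB0 hB0 (fun j h5 h6 => ⟨e2 j h5 (by omega), o2 j h5 (by omega)⟩)
    (e2 1 le_rfl (by norm_num)) (o2 1 le_rfl (by norm_num)) e1 o1
  refine nb_mono f1 ?_
  have g1 : (1 + x) ^ 4 ≤ 16 := by
    calc (1 + x) ^ 4 ≤ 2 ^ 4 := pow_le_pow_left₀ (by linarith) (by linarith) 4
      _ = 16 := by norm_num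
  have g2 : (1 + x) * B ≤ 2 * B := mul_le_mul_of_nonneg_right (by linarith) hB0
  have g3 : (1 + x) ^ 4 * B ≤ 16 * B := mul_le_mul_of_nonneg_right g1 hB0
  have g4 : C4 * x ^ 2 * (1 + x) ^ 4 ≤ C4 * x ^ 2 * 16 := mul_le_mul_of_nonneg_left g1 (by positivity)
  have g5 : M * (K * a) ≤ 3 * A * (K * a) := mul_le_mul_of_nonneg_right hM1 hKa
  have g6 : x ^ 2 = (C * K) ^ 2 * a ^ 2 := by rw [hx]; ring
  have g7 : 0 ≤ a ^ 2 := sq_nonneg a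
  calc _ ≤ 2 * B + 16 * B + C4 * x ^ 2 * 16 := by linarith
    _ = 18 * (M * (K * a)) + 18 * C * K ^ 2 * a ^ 2 + 16 * C4 * (C * K) ^ 2 * a ^ 2 := by
        rw [g6, hB]; ring
    _ ≤ 54 * K * A * a + (18 * C * K ^ 2 + 16 * C4 * (C * K) ^ 2 + 1) * a ^ 2 := by nlinarith

theorem pieces_large (hCut : S_CUT) (hN : S_NV) (hEM : S_EM) (hE : S_EC0) (hI : S_EI2) : ∃ δ : ℝ, 0 < δ ∧
    ∀ (r : ℕ) (m : ℝ), 2 ≤ r → ∃ c : ℝ, 0 ≤ c ∧ ∀ (W : P2 → ℝ) (b : ℝ), ContDiff ℝ ∞ W →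
    NB 0 W δ → NB 1 W δ → (∀ j : ℕ, j < r → NB j W m) → 0 ≤ b → NB r W b → ∀ A i : ℕ,
    (NB r (evp A W i) (4 * 4 ^ r * b + c) ∧ ∀ j : ℕ, j < r → NB j (evp A W i) c) ∧
    (NB r (odp A W i) (4 * 4 ^ r * b + c) ∧ ∀ j : ℕ, j < r → NB j (odp A W i) c) := by
  obtain ⟨a1, a2, a3, -⟩ := cut_the0 hCut
  obtain ⟨b1, b2, b3, -⟩ := cut_kap1 hCut
  obtain ⟨δ, hδ, h⟩ := wo_large hCut hN hE hEM hI
  obtain ⟨δ', K, hδ', hK, h'⟩ := wo_one hCut hN hE hEM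
  refine ⟨min δ δ', by positivity, fun r m hr => ?_⟩
  obtain ⟨c0, hc0, h0⟩ := h r m hr
  obtain ⟨c1, hc1, h1⟩ := em_large hEM _ a1 a2 a3 r m
  obtain ⟨c2, hc2, h2⟩ := em_large hEM _ b1 b2 b3 r c0
  refine ⟨c0 + c1 + c2, by positivity, fun W b hW w0 w1 wj hb wr A i => ?_⟩
  have q5 : (1:ℝ) ≤ 4 ^ r := one_le_pow₀ (by norm_num)
  obtain ⟨o1, o2⟩ := h0 W b hW (nb_mono w0 (min_le_left _ _)) (nb_mono w1 (min_le_left _ _)) wj hb wr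
  have o3 := (h' W hW _ (min_le_right _ _) w0 w1).1
  obtain ⟨p1, p2⟩ := h1 _ b (cd_tr (2 * ((i : ℝ) - A)) hW) hb (fun j h5 => nb_tr _ (wj j h5)) (nb_tr _ wr)
  obtain ⟨q1, q2⟩ := h2 _ (4 * 4 ^ r * b + c0) (cd_tr (2 * ((i : ℝ) - A) + 1) o3) (by positivity)
    (fun j h5 => nb_tr _ (o2 j h5)) (nb_tr _ o1)
  refine ⟨⟨nb_mono p1 ?_, fun j h5 => nb_mono (p2 j h5) ?_⟩, nb_mono q1 ?_, fun j h5 => nb_mono (q2 j h5) ?_⟩
  · nlinarith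
  · linarith
  · linarith
  · linarith

theorem y2 (hCH : S_CH0) (hCH2 : S_CH2) (hCut : S_CUT) (hN : S_NV) (hE : S_EC0) (hEM : S_EM)
    (hI : S_EI2) (hP : S_POIN) : S_Y2 := by
  obtain ⟨δ1, K, hδ1, hK, h1⟩ := pieces_one hCut hN hEM hE
  obtain ⟨δ2, hδ2, h2⟩ := pieces_large hCut hN hEM hE hI
  refine ⟨48, 16, by norm_num, by norm_num, fun A hA => ?_⟩
  obtain ⟨δ3, hδ3, h3⟩ := hCH (2 * A + 1)
  obtain ⟨δ4, hδ4, h4⟩ := hCH2 (2 * A + 1)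
  obtain ⟨M, hM⟩ : ∃ M : ℝ, M = ((2 * A + 1 : ℕ) : ℝ) := ⟨_, rfl⟩
  have hA1 : (1:ℝ) ≤ A := by exact_mod_cast hA
  have hM3 : M ≤ 3 * A := by
    rw [hM]; push_cast
    linarith
  have hM1 : 1 ≤ M := by
    rw [hM]; push_cast
    linarith
  obtain ⟨δ, hδ, d1, d2, d3, d4, d5⟩ : ∃ δ : ℝ, 0 < δ ∧ 2 * δ ≤ δ1 ∧ 2 * δ ≤ δ2 ∧ K * (2 * δ) ≤ δ3 ∧
      K * (2 * δ) ≤ δ4 ∧ 2 * M * (K * (2 * δ)) ≤ 1 := by
    refine ⟨min (min (δ1 / 2) (δ2 / 2)) (min (min (δ3 / (2 * K)) (δ4 / (2 * K))) (1 / (4 * M * K))), by positivity,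
      ?_, ?_, ?_, ?_, ?_⟩
    · have : min (min (δ1 / 2) (δ2 / 2)) (min (min (δ3 / (2 * K)) (δ4 / (2 * K))) (1 / (4 * M * K))) ≤ δ1 / 2 :=
        (min_le_left _ _).trans (min_le_left _ _)
      linarith
    · have : min (min (δ1 / 2) (δ2 / 2)) (min (min (δ3 / (2 * K)) (δ4 / (2 * K))) (1 / (4 * M * K))) ≤ δ2 / 2 :=
        (min_le_left _ _).trans (min_le_right _ _)
      linarith
    · have : min (min (δ1 / 2) (δ2 / 2)) (min (min (δ3 / (2 * K)) (δ4 / (2 * K))) (1 / (4 * M * K))) ≤ δ3 / (2 * K) :=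
        (min_le_right _ _).trans ((min_le_left _ _).trans (min_le_left _ _))
      rw [le_div_iff₀ (by positivity)] at this
      linarith
    · have : min (min (δ1 / 2) (δ2 / 2)) (min (min (δ3 / (2 * K)) (δ4 / (2 * K))) (1 / (4 * M * K))) ≤ δ4 / (2 * K) :=
        (min_le_right _ _).trans ((min_le_left _ _).trans (min_le_right _ _))
      rw [le_div_iff₀ (by positivity)] at this
      linarith
    · have : min (min (δ1 / 2) (δ2 / 2)) (min (min (δ3 / (2 * K)) (δ4 / (2 * K))) (1 / (4 * M * K))) ≤ 1 / (4 * M * K) :=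
        (min_le_right _ _).trans (min_le_right _ _)
      rw [le_div_iff₀ (by positivity)] at this
      linarith
  refine ⟨δ, hδ, fun r m hr => ?_⟩
  obtain ⟨c3, hc3, h5⟩ := h2 r m hr
  obtain ⟨c4, hc4, h6⟩ := h4 r c3 hr
  obtain ⟨a0, ha0⟩ : ∃ a0 : ℝ, a0 = max c4 (M * c3) := ⟨_, rfl⟩
  have ha1 : c4 ≤ a0 := by rw [ha0]; exact le_max_left _ _
  have ha2 : M * c3 ≤ a0 := by rw [ha0]; exact le_max_right _ _
  have ha3 : 0 ≤ a0 := hc4.trans ha1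
  obtain ⟨c5, hc5, h7⟩ := hE r (by omega)
  obtain ⟨c6, hc6, h8⟩ := star_bdd hE r a0
  obtain ⟨c, hc⟩ : ∃ c : ℝ, c = c6 + (2 + 2 ^ r) * (2 * M * 2 ^ r * c3 + c4) + c5 * a0 ^ 2 * (1 + a0) ^ r := ⟨_, rfl⟩
  have q1 : 0 ≤ (2 + (2:ℝ) ^ r) * (2 * M * 2 ^ r * c3 + c4) := by positivity
  have q2 : 0 ≤ c5 * a0 ^ 2 * (1 + a0) ^ r := by positivity
  refine ⟨c, by linarith, fun W b hW hs w1 wj hb wr => ?_⟩
  have w0 : NB 0 W (2 * δ) := hP.1 W A 0 δ hW hs w1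
  have w1' : NB 1 W (2 * δ) := nb_mono w1 (by linarith)
  have hp := h1 W hW (2 * δ) d1 w0 w1' A
  have hl := h5 W b hW (nb_mono w0 d2) (nb_mono w1' d2) wj hb wr A
  obtain ⟨k1, k2, k3, -⟩ := h3 (evp A W) (evp A W) (fun i => (hp i).1) (fun i => (hp i).1)
  obtain ⟨k1', k2', k3', -⟩ := h3 (odp A W) (odp A W) (fun i => (hp i).2.1) (fun i => (hp i).2.1)
  have hr0 : 0 < r := by omega
  have e0 := k2 c3 (fun i _ => nb_zero.1 ((hl i).1.2 0 hr0))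
  have o0 := k2' c3 (fun i _ => nb_zero.1 ((hl i).2.2 0 hr0))
  have hx0 : 0 ≤ K * (2 * δ) := by positivity
  have e1 := k3 _ hx0 d3 (fun i _ => (hp i).2.2.2.2.1)
  have o1 := k3' _ hx0 d3 (fun i _ => (hp i).2.2.2.2.2)
  have hb' : 0 ≤ 4 * 4 ^ r * b + c3 := by positivity
  obtain ⟨er, ej⟩ := h6 (evp A W) (4 * 4 ^ r * b + c3) (fun i => (hp i).1) hb'
    (fun i _ => nb_mono (hp i).2.2.2.2.1 d4) (fun i _ j _ h9 => (hl i).1.2 j h9) (fun i _ => (hl i).1.1)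
  obtain ⟨or, oj⟩ := h6 (odp A W) (4 * 4 ^ r * b + c3) (fun i => (hp i).2.1) hb'
    (fun i _ => nb_mono (hp i).2.2.2.2.2 d4) (fun i _ j _ h9 => (hl i).2.2 j h9) (fun i _ => (hl i).2.1)
  rw [← hM] at e0 o0 e1 o1 er or
  have E : ∀ j : ℕ, j < r → NB j (chain (evp A W) (2 * A + 1)) a0 := by
    intro j hj
    rcases Nat.eq_zero_or_pos j with rfl | hj0
    · exact nb_mono (nb_zero.2 e0) ha2
    · exact nb_mono (ej j hj0 hj) ha1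
  have O : ∀ j : ℕ, j < r → NB j (chain (odp A W) (2 * A + 1)) a0 := by
    intro j hj
    rcases Nat.eq_zero_or_pos j with rfl | hj0
    · exact nb_mono (nb_zero.2 o0) ha2
    · exact nb_mono (oj j hj0 hj) ha1
  refine ⟨?_, fun j hj => nb_mono (h8 _ _ k1 k1' E O j hj) (by linarith)⟩
  obtain ⟨B, hB⟩ : ∃ B, B = 2 * M * 2 ^ r * (4 * 4 ^ r * b + c3) + c4 := ⟨_, rfl⟩
  rw [← hB] at er or
  have hB0 : 0 ≤ B := by rw [hB]; positivity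
  have f1 := h7 _ _ k1 k1' a0 1 1 B B ha3 zero_le_one zero_le_one hB0 hB0 (fun j _ hj => ⟨E j hj, O j hj⟩)
    (nb_mono e1 d5) (nb_mono o1 d5) er or
  refine nb_mono f1 ?_
  have q6 : (1 + 1 : ℝ) ^ r = 2 ^ r := by norm_num
  have q3 : (4:ℝ) ^ r = 2 ^ r * 2 ^ r := by rw [← mul_pow]; norm_num
  have q3' : (16:ℝ) ^ r = 2 ^ r * 2 ^ r * (2 ^ r * 2 ^ r) := by rw [← mul_pow, ← mul_pow]; norm_num
  have q4 : (2:ℝ) ≤ 2 ^ r := by
    calc (2:ℝ) = 2 ^ 1 := by norm_num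
      _ ≤ 2 ^ r := pow_le_pow_right₀ (by norm_num) (by omega)
  rw [q6, hc, q3', hB, q3]
  obtain ⟨t, ht⟩ : ∃ t : ℝ, t = 2 ^ r := ⟨_, rfl⟩
  rw [← ht] at q4 ⊢
  have q7 : (2 + t) * (2 * M * t * (4 * (t * t) * b)) ≤ 48 * (t * t * (t * t)) * A * b := by
    have h9 : (2 + t) * (2 * M * t * (4 * (t * t) * b)) = ((2 + t) * M) * (8 * (t * (t * t)) * b) := by ring
    have h10 : 48 * (t * t * (t * t)) * A * b = ((2 * t) * (3 * A)) * (8 * (t * (t * t)) * b) := by ring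
    rw [h9, h10]
    apply mul_le_mul_of_nonneg_right _ (by positivity)
    exact mul_le_mul (by linarith) hM3 (by linarith) (by linarith)
  linarith

end Pool.Agent.W291.DQ
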